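import Mathlib
import Pool.Agent.H542R2.MC.Defs

set_option autoImplicit false

/-!
DNF formulas described by bits, and refutations of the statement that a labelled sample is
consistent with a DNF formula, whose lines are formulas over the bits of the description.
-/

namespace Pool.Agent.R617.DF

open H542.MC (Fml)

variable {s w B : ℕ}

/-- The bits which describe a DNF formula with `s` terms of `w` literals each (literals may be
repeated) over `2 ^ B` variables: `((t, p), none)` is the sign of the literal at position `p` of
term `t`, and `((t, p), some r)`, `r < B`, are the bits of the name of its variable. -/
abbrev Bits (s w B : ℕ) := (Fin s × Fin w) × Option (Fin B)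

/-- A point of the cube: the values of the `2 ^ B` variables, whose names are words of `B` bits. -/
abbrev Pt (B : ℕ) := (Fin B → Bool) → Bool

/-- The value at the point `x` of the DNF formula described by `y`: all literals of some term are
true. A literal with sign `true` is its variable, a literal with sign `false` the negation. -/
def value (y : Bits s w B → Bool) (x : Pt B) : Bool :=
  decide (∃ t : Fin s, ∀ p : Fin w, x (fun r => y ((t, p), some r)) = y ((t, p), none))

/-- A refutation with `S` lines of the statement that the sample `X` with the labels `lab` is
consistent with a DNF formula with `s` terms of `w` literals. The lines are formulas over the bits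
of the description, with at most `L` occurrences of variables. Every line is implied by at most `a`
earlier lines together with the consistency with at most `u` of the labelled examples, and some
line is unsatisfiable. -/
structure Refutation (s w : ℕ) {B N : ℕ} (X : Fin N → Pt B) (lab : Fin N → Bool)
    (a u L S : ℕ) where
  line : Fin S → Fml (Bits s w B)
  size_le : ∀ j, (line j).size ≤ L
  sound : ∀ j, ∃ (P : Finset (Fin S)) (Q : Finset (Fin N)), P.card ≤ a ∧ Q.card ≤ u ∧
    (∀ p ∈ P, p < j) ∧ ∀ y, (∀ p ∈ P, (line p).eval y = true) →
      (∀ i ∈ Q, value y (X i) = lab i) → (line j).eval y = true
  final : ∃ j, ∀ y, (line j).eval y = false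

end Pool.Agent.R617.DF
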