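import Pool.Agent.R617.DF.Sub
import Pool.Agent.H542R2.JU.All

set_option autoImplicit false

/-!
The lower bound for refutations of consistency with DNF formulas.
-/

namespace Pool.Agent.R617.DF

open Finset Filter
open Pool.Agent.Results.MP_cba12a_lc.DnfRefutations (OddVec exists_surj)

open Classical in
theorem main (C a : ℕ) : ∃ c : ℝ, 0 < c ∧ ∃ n0 : ℕ, ∀ s w B n N : ℕ, n = 2 ^ B → n0 ≤ n →
      1 ≤ s → Nat.log 2 s + 1 ≤ w → Real.logb 2 s ≤ (n : ℝ) ^ c →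
      (N : ℝ) ≤ (2 : ℝ) ^ ((n : ℝ) ^ c) →
      ((univ.filter fun X : Fin N → Pt B =>
        ¬ ∀ (lab : Fin N → Bool) (u S : ℕ),
          (u : ℝ) ≤ c * (Real.logb 2 s * Real.logb 2 n) →
            Nonempty (Refutation s w X lab a u (C * ((Nat.log 2 s + 1) * B)) S) →
            (n : ℝ) ^ (c * Real.logb 2 s) ≤ S).card : ℝ) ≤
        (2 : ℝ) ^ (-(n : ℝ) ^ c) * Fintype.card (Fin N → Pt B) := by
  obtain ⟨c0, hc0, m0, H⟩ := H542.JU.final (2 * C) 0 a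
  obtain ⟨δ, hδ⟩ : ∃ δ : ℝ, δ = min (c0 / 2) (1 / 8) := ⟨_, rfl⟩
  have hδpos : 0 < δ := by
    rw [hδ]; exact lt_min (by positivity) (by norm_num)
  have hδ1 : δ ≤ c0 / 2 := by rw [hδ]; exact min_le_left _ _
  have hδ2 : δ ≤ 1 / 8 := by rw [hδ]; exact min_le_right _ _
  obtain ⟨n1, hn1⟩ : ∃ n1 : ℕ, ∀ n : ℕ, n1 ≤ n → 2 * (2 : ℝ) ^ c0 ≤ (n : ℝ) ^ (c0 / 2) := by
    have h := ((tendsto_rpow_atTop (half_pos hc0)).comp
      (tendsto_natCast_atTop_atTop (R := ℝ))).eventually_ge_atTop (2 * (2 : ℝ) ^ c0)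
    exact eventually_atTop.1 h
  obtain ⟨n2, hn2⟩ : ∃ n2 : ℕ, ∀ n : ℕ, n2 ≤ n → (1 : ℝ) ≤ (n : ℝ) ^ δ := by
    have h := ((tendsto_rpow_atTop hδpos).comp
      (tendsto_natCast_atTop_atTop (R := ℝ))).eventually_ge_atTop (1 : ℝ)
    exact eventually_atTop.1 h
  obtain ⟨n3, hn3⟩ : ∃ n3 : ℕ, ∀ n : ℕ, n3 ≤ n → (16 : ℝ) ≤ (n : ℝ) ^ (3 / 4 : ℝ) := by
    have h := ((tendsto_rpow_atTop (by norm_num : (0 : ℝ) < 3 / 4)).comp
      (tendsto_natCast_atTop_atTop (R := ℝ))).eventually_ge_atTop (16 : ℝ)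
    exact eventually_atTop.1 h
  refine ⟨δ, hδpos, max (max n1 n2) (max n3 (max 4 (2 * m0))),
    fun s w B n N hnB hn hs hw hsn hN => ?_⟩
  have hn1' : n1 ≤ n := (le_max_left _ _).trans ((le_max_left _ _).trans hn)
  have hn2' : n2 ≤ n := (le_max_right _ _).trans ((le_max_left _ _).trans hn)
  have hn3' : n3 ≤ n := (le_max_left _ _).trans ((le_max_right _ _).trans hn)
  have hn4 : 4 ≤ n := (le_max_left _ _).trans
    ((le_max_right _ _).trans ((le_max_right _ _).trans hn))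
  have hn5 : 2 * m0 ≤ n := (le_max_right _ _).trans
    ((le_max_right _ _).trans ((le_max_right _ _).trans hn))
  have hnR : (4 : ℝ) ≤ n := by exact_mod_cast hn4
  have hnpos : (0 : ℝ) < n := by linarith
  have hn1R : (1 : ℝ) ≤ n := by linarith
  have hA := hn1 n hn1'
  have hB := hn2 n hn2'
  have hD := hn3 n hn3'
  have hsR : (0 : ℝ) < s := by exact_mod_cast hs
  have hs1R : (1 : ℝ) ≤ s := by exact_mod_cast hs
  have hlog0 : 0 ≤ Real.logb 2 s := Real.logb_nonneg (by norm_num) hs1R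
  obtain ⟨k, hk⟩ : ∃ k, k = Nat.log 2 s + 1 := ⟨_, rfl⟩
  have hk1 : 1 ≤ k := by omega
  have hkR1 : (1 : ℝ) ≤ k := by exact_mod_cast hk1
  have hlogk : Real.logb 2 s ≤ k := by
    have h1 : s < 2 ^ k := by
      rw [hk]
      exact Nat.lt_pow_succ_log_self (by norm_num) s
    have h2 : (s : ℝ) ≤ (2 : ℝ) ^ (k : ℝ) := by
      rw [Real.rpow_natCast]
      exact_mod_cast h1.le
    rw [Real.logb_le_iff_le_rpow (by norm_num) hsR]
    exact h2
  have hklog : (k : ℝ) ≤ Real.logb 2 s + 1 := by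
    rw [hk]
    push_cast
    have := Real.natLog_le_logb s 2
    push_cast at this
    linarith
  have hk2 : (k : ℝ) ≤ 2 * (n : ℝ) ^ δ := by linarith
  -- the number of bits for the groups
  obtain ⟨κ, hκ⟩ : ∃ κ, κ = Nat.clog 2 k := ⟨_, rfl⟩
  have hκ1 : k ≤ 2 ^ κ := by rw [hκ]; exact Nat.le_pow_clog (by norm_num) k
  have hκ2 : 2 ^ κ ≤ 2 * k := by
    rcases Nat.lt_or_ge 1 k with h | h
    · have h1 := Nat.pow_pred_clog_lt_self (by norm_num : 1 < 2) h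
      rw [← hκ] at h1
      have h2 : 0 < κ := by rw [hκ]; exact Nat.clog_pos (by norm_num) h
      obtain ⟨κ', rfl⟩ : ∃ κ', κ = κ' + 1 := ⟨κ - 1, by omega⟩
      rw [Nat.pred_eq_sub_one, Nat.add_sub_cancel] at h1
      rw [pow_succ]
      omega
    · have h1 : k = 1 := by omega
      have h2 : κ = 0 := by
        rw [hκ, h1]
        exact Nat.clog_one_right 2
      rw [h2, h1]
      norm_num
  have h4k : ((2 : ℝ) ^ κ) ^ 2 ≤ n := by
    have h1 : (2 : ℝ) ^ κ ≤ 4 * (n : ℝ) ^ δ := by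
      have : ((2 ^ κ : ℕ) : ℝ) ≤ ((2 * k : ℕ) : ℝ) := by exact_mod_cast hκ2
      push_cast at this
      linarith
    have h2 : (n : ℝ) ^ δ ≤ (n : ℝ) ^ (1 / 8 : ℝ) :=
      Real.rpow_le_rpow_of_exponent_le hn1R hδ2
    have h3 : ((2 : ℝ) ^ κ) ^ 2 ≤ (4 * (n : ℝ) ^ (1 / 8 : ℝ)) ^ 2 := by
      apply pow_le_pow_left₀ (by positivity)
      linarith
    have h4 : (4 * (n : ℝ) ^ (1 / 8 : ℝ)) ^ 2 = 16 * (n : ℝ) ^ (1 / 4 : ℝ) := by
      rw [mul_pow, ← Real.rpow_natCast ((n : ℝ) ^ (1 / 8 : ℝ)), ← Real.rpow_mul hnpos.le]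
      norm_num
    have h5 : (n : ℝ) = (n : ℝ) ^ (3 / 4 : ℝ) * (n : ℝ) ^ (1 / 4 : ℝ) := by
      rw [← Real.rpow_add hnpos]
      norm_num
    rw [h4] at h3
    refine h3.trans ?_
    conv_rhs => rw [h5]
    exact mul_le_mul_of_nonneg_right hD (by positivity)
  have hκB : 2 * κ ≤ B := by
    have h1 : (2 ^ κ) ^ 2 ≤ 2 ^ B := by
      rw [← hnB]
      exact_mod_cast h4k
    rw [← pow_mul, Nat.pow_le_pow_iff_right (by norm_num)] at h1
    omega
  obtain ⟨b, rfl⟩ : ∃ b, B = κ + b := ⟨B - κ, by omega⟩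
  have hbB : κ + b ≤ 2 * b := by omega
  obtain ⟨m, hm⟩ : ∃ m, m = k * 2 ^ b := ⟨_, rfl⟩
  have hnm : n ≤ 2 * m := by
    rw [hnB, hm, pow_add]
    calc 2 ^ κ * 2 ^ b ≤ 2 * k * 2 ^ b := Nat.mul_le_mul_right _ hκ2
      _ = _ := by ring
  have hnmR : (n : ℝ) / 2 ≤ m := by
    have : (n : ℝ) ≤ ((2 * m : ℕ) : ℝ) := by exact_mod_cast hnm
    push_cast at this
    linarith
  have hmpos : (0 : ℝ) < m := by linarith
  have hm1 : (1 : ℝ) ≤ m := by linarith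
  have hkey : 2 * (n : ℝ) ^ δ ≤ (m : ℝ) ^ c0 := by
    have h1 : ((n : ℝ) / 2) ^ c0 ≤ (m : ℝ) ^ c0 :=
      Real.rpow_le_rpow (by positivity) hnmR hc0.le
    have h2 : ((n : ℝ) / 2) ^ c0 = (n : ℝ) ^ c0 / (2 : ℝ) ^ c0 :=
      Real.div_rpow hnpos.le (by norm_num) _
    have h3 : (n : ℝ) ^ c0 = (n : ℝ) ^ (c0 / 2) * (n : ℝ) ^ (c0 / 2) := by
      rw [← Real.rpow_add hnpos]
      ring_nf
    have h4 : (n : ℝ) ^ δ ≤ (n : ℝ) ^ (c0 / 2) :=
      Real.rpow_le_rpow_of_exponent_le hn1R hδ1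
    have h5 : (0 : ℝ) < (2 : ℝ) ^ c0 := by positivity
    have h6 : (0 : ℝ) < (n : ℝ) ^ (c0 / 2) := by positivity
    refine le_trans ?_ h1
    rw [h2, h3, le_div_iff₀ h5]
    calc 2 * (n : ℝ) ^ δ * (2 : ℝ) ^ c0 = 2 * (2 : ℝ) ^ c0 * (n : ℝ) ^ δ := by ring
      _ ≤ (n : ℝ) ^ (c0 / 2) * (n : ℝ) ^ (c0 / 2) :=
        mul_le_mul hA h4 (by positivity) h6.le
  have hδn : (0 : ℝ) < (n : ℝ) ^ δ := by positivity
  have hmm0 : m0 ≤ m := by omega
  have hkm : (k : ℝ) ≤ (m : ℝ) ^ c0 := hk2.trans hkey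
  have hNm : (N : ℝ) ≤ (2 : ℝ) ^ ((m : ℝ) ^ c0) := by
    refine hN.trans (Real.rpow_le_rpow_of_exponent_le (by norm_num) ?_)
    linarith
  have hH := H k 0 b k m N (by omega) hm hmm0 hk1 (by omega) hkm hNm
  -- the embedding of the variables, the terms, the positions
  obtain ⟨⟨h, hh⟩⟩ : Nonempty (Fin k ↪ (Fin κ → Bool)) :=
    Function.Embedding.nonempty_of_card_le (by simpa using hκ1)
  obtain ⟨f, hf⟩ : ∃ f : Fin s → OddVec k, Function.Surjective f := by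
    subst hk
    exact exists_surj (Nat.pow_log_le_self 2 (by omega))
  obtain ⟨q, hq⟩ : ∃ q : Fin w → Fin k, Function.Surjective q := by
    refine ⟨fun p => if hp : p.1 < k then ⟨p.1, hp⟩ else ⟨0, hk1⟩, fun j => ?_⟩
    refine ⟨⟨j.1, by omega⟩, ?_⟩
    simp
  obtain ⟨P, hP⟩ : ∃ P : (Fin N → H542.JU.Pt k 0 b) → Prop, P = fun Y =>
      ¬ ∀ (g : (Fin 0 → Bool) → Bool) (lab : Fin N → Bool) (u S : ℕ),
          (u : ℝ) ≤ c0 * (k * Real.logb 2 m) →
            Nonempty (H542.JU.Refutation Y g lab a u (2 * C * (k * b)) S) →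
            (m : ℝ) ^ (c0 * k) ≤ S := ⟨_, rfl⟩
  have hcount := card_sample (N := N) (b := b) h hh (univ.filter fun Y => P Y)
    (univ.filter fun X : Fin N → Pt (κ + b) => P fun i => res h (X i)) (by
      intro X
      rw [mem_filter, mem_filter]
      exact ⟨fun h => ⟨mem_univ _, h.2⟩, fun h => ⟨mem_univ _, h.2⟩⟩)
  have hYpos : (0 : ℝ) < Fintype.card (Fin N → H542.JU.Pt k 0 b) := by
    exact_mod_cast Fintype.card_pos
  have hXpos : (0 : ℝ) ≤ Fintype.card (Fin N → Pt (κ + b)) := by positivity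
  have hle : ((univ.filter fun X : Fin N → Pt (κ + b) => P fun i => res h (X i)).card : ℝ) ≤
      (2 : ℝ) ^ (-(m : ℝ) ^ c0) * Fintype.card (Fin N → Pt (κ + b)) := by
    have h1 : ((univ.filter fun X : Fin N → Pt (κ + b) => P fun i => res h (X i)).card : ℝ) *
        Fintype.card (Fin N → H542.JU.Pt k 0 b) =
      ((univ.filter fun Y : Fin N → H542.JU.Pt k 0 b => P Y).card : ℝ) *
        Fintype.card (Fin N → Pt (κ + b)) := by exact_mod_cast hcount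
    have h2 : ((univ.filter fun Y : Fin N → H542.JU.Pt k 0 b => P Y).card : ℝ) ≤
        (2 : ℝ) ^ (-(m : ℝ) ^ c0) * Fintype.card (Fin N → H542.JU.Pt k 0 b) := by
      refine le_trans (Nat.cast_le.2 (card_le_card ?_)) hH
      intro Y hY
      rw [mem_filter, hP] at hY
      rw [mem_filter]
      exact hY
    refine le_of_mul_le_mul_right ?_ hYpos
    rw [h1]
    calc _ ≤ (2 : ℝ) ^ (-(m : ℝ) ^ c0) * Fintype.card (Fin N → H542.JU.Pt k 0 b) *
          Fintype.card (Fin N → Pt (κ + b)) := mul_le_mul_of_nonneg_right h2 hXpos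
      _ = _ := by ring
  have hfin : (2 : ℝ) ^ (-(m : ℝ) ^ c0) * Fintype.card (Fin N → Pt (κ + b)) ≤
      (2 : ℝ) ^ (-(n : ℝ) ^ δ) * Fintype.card (Fin N → Pt (κ + b)) := by
    apply mul_le_mul_of_nonneg_right _ hXpos
    exact Real.rpow_le_rpow_of_exponent_le (by norm_num) (by linarith)
  refine le_trans ?_ (hle.trans hfin)
  refine Nat.cast_le.2 (card_le_card ?_)
  intro X hX
  rw [mem_filter] at hX ⊢
  refine ⟨mem_univ _, ?_⟩
  rw [hP]
  intro hgood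
  apply hX.2
  rintro lab u S hu ⟨π⟩
  have hlogn : 0 ≤ Real.logb 2 n := Real.logb_nonneg (by norm_num) hn1R
  have hlogm : Real.logb 2 n ≤ 2 * Real.logb 2 m := by
    have h1 : Real.logb 2 ((n : ℝ) / 2) ≤ Real.logb 2 m :=
      Real.logb_le_logb_of_le (by norm_num) (by positivity) hnmR
    rw [Real.logb_div (by positivity) (by norm_num), Real.logb_self_eq_one (by norm_num)] at h1
    have h2 : (2 : ℝ) ≤ Real.logb 2 n := by
      rw [Real.le_logb_iff_rpow_le (by norm_num) hnpos]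
      norm_num
      exact hn4
    linarith
  have hu' : (u : ℝ) ≤ c0 * (k * Real.logb 2 m) := by
    refine hu.trans ?_
    have h1 : Real.logb 2 s * Real.logb 2 n ≤ k * (2 * Real.logb 2 m) :=
      mul_le_mul hlogk hlogm hlogn (by positivity)
    have h2 : 0 ≤ Real.logb 2 s * Real.logb 2 n := mul_nonneg hlog0 hlogn
    calc δ * (Real.logb 2 s * Real.logb 2 n) ≤ c0 / 2 * (Real.logb 2 s * Real.logb 2 n) :=
          mul_le_mul_of_nonneg_right hδ1 h2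
      _ ≤ c0 / 2 * (k * (2 * Real.logb 2 m)) := mul_le_mul_of_nonneg_left h1 (by positivity)
      _ = _ := by ring
  have hL : C * ((Nat.log 2 s + 1) * (κ + b)) ≤ 2 * C * (k * b) := by
    rw [← hk]
    calc C * (k * (κ + b)) ≤ C * (k * (2 * b)) := by gcongr
      _ = _ := by ring
  have hS := hgood (fun _ => false) lab u S hu' ⟨tr h f hf q hq hL π⟩
  refine le_trans ?_ hS
  have h1 : (n : ℝ) ^ δ ≤ (m : ℝ) ^ c0 := by linarith
  calc (n : ℝ) ^ (δ * Real.logb 2 s) ≤ (n : ℝ) ^ (δ * k) :=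
        Real.rpow_le_rpow_of_exponent_le hn1R (mul_le_mul_of_nonneg_left hlogk hδpos.le)
    _ = ((n : ℝ) ^ δ) ^ (k : ℝ) := Real.rpow_mul hnpos.le _ _
    _ ≤ ((m : ℝ) ^ c0) ^ (k : ℝ) := Real.rpow_le_rpow hδn.le h1 (by positivity)
    _ = (m : ℝ) ^ (c0 * k) := (Real.rpow_mul hmpos.le _ _).symm

end Pool.Agent.R617.DF
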