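import Pool.Agent.R617.DF.Defs
import Pool.Agent.H542R2.JU.Defs
import Pool.Agent.Results.MP_cba12a_lc.DnfRefutations

set_option autoImplicit false

/-!
Parities as DNF formulas, in terms of the bits of the descriptions.
-/

namespace Pool.Agent.R617.DF

open H542.MC (Fml)
open Finset
open Pool.Agent.Results.MP_cba12a_lc.DnfRefutations (OddVec exists_surj card_restrict)

/-- substitution -/
def subst {V W : Type} (σ : V → Fml W) : Fml V → Fml W
  | .const b => .const b
  | .var v => σ v
  | .neg f => .neg (subst σ f)
  | .and f g => .and (subst σ f) (subst σ g)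
  | .or f g => .or (subst σ f) (subst σ g)

theorem eval_subst {V W : Type} (σ : V → Fml W) (z : W → Bool) (f : Fml V) :
    (subst σ f).eval z = f.eval fun v => (σ v).eval z := by
  induction f with
  | const b => rfl
  | var v => rfl
  | neg f ih => simp only [subst, Fml.eval, ih]
  | and f g ihf ihg => simp only [subst, Fml.eval, ihf, ihg]
  | or f g ihf ihg => simp only [subst, Fml.eval, ihf, ihg]

theorem size_subst {V W : Type} (σ : V → Fml W) (hσ : ∀ v, (σ v).size ≤ 1) (f : Fml V) :
    (subst σ f).size ≤ f.size := by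
  induction f with
  | const b => exact le_rfl
  | var v => exact hσ v
  | neg f ih => exact ih
  | and f g ihf ihg => exact Nat.add_le_add ihf ihg
  | or f g ihf ihg => exact Nat.add_le_add ihf ihg

variable {s w κ b k N : ℕ}

/-- the name of a variable -/
def nm (h : Fin k → Fin κ → Bool) (c : Fin k × (Fin b → Bool)) : Fin (κ + b) → Bool :=
  Fin.append (h c.1) c.2

theorem nm_inj {h : Fin k → Fin κ → Bool} (hh : Function.Injective h) :
    Function.Injective (nm (b := b) h) := by
  rintro ⟨j, v⟩ ⟨j', v'⟩ e
  unfold nm at e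
  have h1 : h j = h j' := by
    funext r
    have := congrFun e (Fin.castAdd b r)
    rwa [Fin.append_left, Fin.append_left] at this
  have h2 : v = v' := by
    funext r
    have := congrFun e (Fin.natAdd κ r)
    rwa [Fin.append_right, Fin.append_right] at this
  exact Prod.ext (hh h1) h2

/-- the substitution -/
def sg (h : Fin k → Fin κ → Bool) (f : Fin s → OddVec k) (q : Fin w → Fin k) :
    Bits s w (κ + b) → Fml (H542.JU.Bits k 0 b)
  | ((t, p), none) => .const ((f t).1 (q p))
  | ((_, p), some r) =>
    Fin.addCases (motive := fun _ => Fml (H542.JU.Bits k 0 b))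
      (fun r1 => .const (h (q p) r1)) (fun r2 => .var (.inl (q p), r2)) r

theorem sg_size (h : Fin k → Fin κ → Bool) (f : Fin s → OddVec k) (q : Fin w → Fin k)
    (v : Bits s w (κ + b)) : (sg h f q v).size ≤ 1 := by
  rcases v with ⟨⟨t, p⟩, _ | r⟩
  · exact Nat.zero_le _
  · refine Fin.addCases (fun r1 => ?_) (fun r2 => ?_) r
    · simp only [sg, Fin.addCases_left]; exact Nat.zero_le _
    · simp only [sg, Fin.addCases_right]; exact le_rfl

theorem sg_name (h : Fin k → Fin κ → Bool) (f : Fin s → OddVec k) (q : Fin w → Fin k)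
    (z : H542.JU.Bits k 0 b → Bool) (t : Fin s) (p : Fin w) :
    (fun r => (sg h f q ((t, p), some r)).eval z) =
      nm h (q p, fun r2 => z (.inl (q p), r2)) := by
  funext r
  refine Fin.addCases (fun r1 => ?_) (fun r2 => ?_) r
  · simp only [sg, Fin.addCases_left, nm, Fin.append_left]; rfl
  · simp only [sg, Fin.addCases_right, nm, Fin.append_right]; rfl

/-- the restriction of a point to the variables which occur -/
def res (h : Fin k → Fin κ → Bool) (x : Pt (κ + b)) : H542.JU.Pt k 0 b :=
  fun r v => match r with
    | .inl j => x (nm h (j, v))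
    | .inr e => e.elim0

theorem value_sg (h : Fin k → Fin κ → Bool) (f : Fin s → OddVec k) (hf : Function.Surjective f)
    (q : Fin w → Fin k) (hq : Function.Surjective q) (z : H542.JU.Bits k 0 b → Bool)
    (x : Pt (κ + b)) :
    value (fun v => (sg h f q v).eval z) x = H542.JU.junta (fun _ => false) z (res h x) := by
  unfold value H542.JU.junta
  rw [Bool.xor_false]
  apply decide_eq_decide.2
  simp only [sg_name]
  have e1 : ∀ t p, (sg h f q ((t, p), none) : Fml (H542.JU.Bits k 0 b)).eval z =
      (f t).1 (q p) := fun t p => rfl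
  have e2 : ∀ j, H542.JU.att z (res h x) (.inl j) = x (nm h (j, fun r2 => z (.inl j, r2))) :=
    fun j => rfl
  constructor
  · rintro ⟨t, ht⟩
    have h1 : ∀ j : Fin k, x (nm h (j, fun r2 => z (.inl j, r2))) = (f t).1 j := by
      intro j
      obtain ⟨p, rfl⟩ := hq j
      rw [ht p, e1]
    have h2 := (f t).2
    have h3 : (univ.filter fun j : Fin k => H542.JU.att z (res h x) (.inl j) = true) =
        univ.filter fun j : Fin k => (f t).1 j = true := by
      ext j
      rw [mem_filter, mem_filter, ← h1 j, e2]
    rw [h3]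
    exact h2
  · intro h1
    obtain ⟨t, ht⟩ := hf ⟨fun j => x (nm h (j, fun r2 => z (.inl j, r2))), by
      simp only [e2] at h1
      exact h1⟩
    refine ⟨t, fun p => ?_⟩
    rw [e1, ht]

/-- the transferred refutation -/
def tr (h : Fin k → Fin κ → Bool) (f : Fin s → OddVec k) (hf : Function.Surjective f)
    (q : Fin w → Fin k) (hq : Function.Surjective q) {X : Fin N → Pt (κ + b)} {lab : Fin N → Bool}
    {a u L S L' : ℕ} (hL : L ≤ L') (π : Refutation s w X lab a u L S) :
    H542.JU.Refutation (fun i => res h (X i)) (fun _ => false) lab a u L' S where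
  line j := subst (sg h f q) (π.line j)
  size_le j := (size_subst _ (sg_size h f q) _).trans ((π.size_le j).trans hL)
  sound j := by
    obtain ⟨P, Q, hP, hQ, hlt, hs⟩ := π.sound j
    refine ⟨P, Q, hP, hQ, hlt, fun z hz hc => ?_⟩
    rw [eval_subst]
    refine hs _ (fun p hp => ?_) (fun i hi => ?_)
    · rw [← eval_subst]; exact hz p hp
    · rw [value_sg h f hf q hq]; exact hc i hi
  final := by
    obtain ⟨j, hj⟩ := π.final
    exact ⟨j, fun z => by rw [eval_subst]; exact hj _⟩

theorem card_sample (h : Fin k → Fin κ → Bool) (hh : Function.Injective h)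
    (T : Finset (Fin N → H542.JU.Pt k 0 b)) (S : Finset (Fin N → Pt (κ + b)))
    (hST : ∀ X, X ∈ S ↔ (fun i => res h (X i)) ∈ T) :
    S.card * Fintype.card (Fin N → H542.JU.Pt k 0 b) =
      T.card * Fintype.card (Fin N → Pt (κ + b)) := by
  classical
  let e : Fin N × (Fin k × (Fin b → Bool)) → Fin N × (Fin (κ + b) → Bool) :=
    fun c => (c.1, nm h c.2)
  have he : Function.Injective e := by
    rintro ⟨a, c⟩ ⟨a', c'⟩ h0
    have h1 : a = a' := congrArg Prod.fst h0
    have h2 : nm h c = nm h c' := congrArg Prod.snd h0
    rw [h1, nm_inj hh h2]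
  let u : (Fin N × (Fin (κ + b) → Bool) → Bool) ≃ (Fin N → Pt (κ + b)) := Equiv.curry _ _ _
  let v : (Fin N × (Fin k × (Fin b → Bool)) → Bool) ≃ (Fin N → H542.JU.Pt k 0 b) :=
    { toFun := fun y i r t => match r with
        | .inl j => y (i, (j, t))
        | .inr e => e.elim0
      invFun := fun Y c => Y c.1 (.inl c.2.1) c.2.2
      left_inv := fun y => by
        funext c
        rfl
      right_inv := fun Y => by
        funext i r t
        match r with
        | .inl j => rfl
        | .inr e => exact e.elim0 }
  have hv : ∀ x : Fin N × (Fin (κ + b) → Bool) → Bool,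
      v (fun i => x (e i)) = fun i => res h (u x i) := by
    intro x
    funext i r t
    match r with
    | .inl j => rfl
    | .inr e => exact e.elim0
  have h0 := card_restrict e he (T.map v.symm.toEmbedding) (S.map u.symm.toEmbedding) (by
    intro x
    rw [mem_map_equiv, mem_map_equiv, Equiv.symm_symm, Equiv.symm_symm, hST, hv])
  rw [card_map, card_map, Fintype.card_congr v, Fintype.card_congr u] at h0
  exact h0

end Pool.Agent.R617.DF
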